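import Pool.Agent.W58.GU.Stm

/-!
Project GU (helper58), part CONT: the method of continuity.
-/

namespace Pool.Agent.W696.GU
open Finset Filter Topology Pool.Agent.W58.GU

theorem cont : S_CONT := by
  intro X _ _ _ A B c hc hA hlow
  set F : ℝ → (X →L[ℝ] X) := fun t => (1 - t) • A + t • B with hF
  have step : ∀ s t : ℝ, 0 ≤ s → s ≤ 1 → |t - s| * ‖B - A‖ < c → IsUnit (F s) → IsUnit (F t) := by
    intro s t hs0 hs1 hst hu
    obtain ⟨u, hu⟩ := hu
    have hinv : ‖(↑u⁻¹ : X →L[ℝ] X)‖ ≤ c⁻¹ := by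
      refine ContinuousLinearMap.opNorm_le_bound _ (by positivity) (fun y => ?_)
      have h1 := hlow s hs0 hs1 ((↑u⁻¹ : X →L[ℝ] X) y)
      have h2 : (1 - s) • A ((↑u⁻¹ : X →L[ℝ] X) y) + s • B ((↑u⁻¹ : X →L[ℝ] X) y) = y := by
        have h3 : (F s * (↑u⁻¹ : X →L[ℝ] X)) y = y := by
          rw [← hu, Units.mul_inv]; rfl
        exact h3
      rw [h2] at h1
      rw [inv_mul_eq_div, le_div_iff₀ hc]
      linarith
    have h1 : ‖(s - t) • ((↑u⁻¹ : X →L[ℝ] X) * (B - A))‖ < 1 := by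
      rw [norm_smul, Real.norm_eq_abs, abs_sub_comm]
      have h2 : ‖(↑u⁻¹ : X →L[ℝ] X) * (B - A)‖ ≤ c⁻¹ * ‖B - A‖ :=
        le_trans (norm_mul_le _ _) (mul_le_mul_of_nonneg_right hinv (norm_nonneg _))
      calc |t - s| * ‖(↑u⁻¹ : X →L[ℝ] X) * (B - A)‖ ≤ |t - s| * (c⁻¹ * ‖B - A‖) :=
            mul_le_mul_of_nonneg_left h2 (abs_nonneg _)
        _ = (|t - s| * ‖B - A‖) / c := by ring
        _ < 1 := by rw [div_lt_one hc]; exact hst
    have h2 : IsUnit (1 - (s - t) • ((↑u⁻¹ : X →L[ℝ] X) * (B - A))) :=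
      isUnit_one_sub_of_norm_lt_one h1
    have h3 : F t = F s * (1 - (s - t) • ((↑u⁻¹ : X →L[ℝ] X) * (B - A))) := by
      rw [mul_sub, mul_one, mul_smul_comm, ← mul_assoc, ← hu, Units.mul_inv, one_mul, hu]
      simp only [hF]
      module
    rw [h3]
    exact (hu ▸ u.isUnit).mul h2
  set h : ℝ := c / (2 * (‖B - A‖ + 1)) with hh
  have hM : 0 ≤ ‖B - A‖ := norm_nonneg _
  have hh0 : 0 < h := by positivity
  have hhM : h * ‖B - A‖ < c := by
    rw [hh, div_mul_eq_mul_div, div_lt_iff₀ (by positivity)]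
    nlinarith
  have ind : ∀ k : ℕ, IsUnit (F (min (k * h) 1)) := by
    intro k
    induction k with
    | zero =>
      have : F (min ((0 : ℕ) * h) 1) = A := by simp [hF]
      rw [this]; exact hA
    | succ k ih =>
      refine step _ _ (le_min (by positivity) zero_le_one) (min_le_right _ _) ?_ ih
      refine lt_of_le_of_lt (mul_le_mul_of_nonneg_right ?_ hM) hhM
      push_cast
      rw [abs_le]
      rcases le_total ((k : ℝ) * h) 1 with h1 | h1
      · rw [min_eq_left h1]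
        rcases le_total (((k : ℝ) + 1) * h) 1 with h2 | h2
        · rw [min_eq_left h2]; constructor <;> nlinarith
        · rw [min_eq_right h2]; constructor <;> nlinarith
      · have h2 : 1 ≤ ((k : ℝ) + 1) * h := by nlinarith
        rw [min_eq_right h1, min_eq_right h2]
        constructor <;> linarith
  obtain ⟨k, hk⟩ := exists_nat_ge (1 / h)
  have h1 : 1 ≤ (k : ℝ) * h := by rwa [div_le_iff₀ hh0] at hk
  have h2 := ind k
  rw [min_eq_right h1] at h2
  have h3 : F 1 = B := by simp [hF]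
  rwa [h3] at h2

end Pool.Agent.W696.GU
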