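import Pool.Agent.W58.GU.Stm

/-!
Project GU (helper58), part CUT: averaging over subsets.
-/

namespace Pool.Agent.W696.GU
open Finset Filter Topology Pool.Agent.W58.GU

theorem sum_pow (U : Finset ℕ) (g : ℕ → ℝ) :
    2 * ∑ A ∈ U.powerset, ∑ b ∈ A, g b = 2 ^ U.card * ∑ b ∈ U, g b := by
  classical
  induction U using Finset.induction_on with
  | empty => simp
  | insert u U hu ih =>
    rw [Finset.sum_powerset_insert hu]
    have h1 : ∑ A ∈ U.powerset, ∑ b ∈ insert u A, g b =
        ∑ A ∈ U.powerset, (g u + ∑ b ∈ A, g b) := by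
      refine Finset.sum_congr rfl (fun A hA => ?_)
      rw [Finset.sum_insert (fun h => hu (Finset.mem_powerset.1 hA h))]
    rw [h1, Finset.sum_add_distrib, Finset.sum_const, Finset.card_powerset, nsmul_eq_mul,
      Finset.card_insert_of_notMem hu, Finset.sum_insert hu, pow_succ]
    push_cast
    linarith

theorem sum_pow' (U : Finset ℕ) (g : ℕ → ℝ) :
    2 * ∑ A ∈ U.powerset, ∑ b ∈ U \ A, g b = 2 ^ U.card * ∑ b ∈ U, g b := by
  classical
  have h1 : ∑ A ∈ U.powerset, ∑ b ∈ U \ A, g b =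
      ∑ A ∈ U.powerset, (∑ b ∈ U, g b - ∑ b ∈ A, g b) := by
    refine Finset.sum_congr rfl (fun A hA => ?_)
    have := Finset.sum_sdiff (f := g) (Finset.mem_powerset.1 hA)
    linarith
  have h2 := sum_pow U g
  rw [h1, Finset.sum_sub_distrib, Finset.sum_const, Finset.card_powerset, nsmul_eq_mul]
  push_cast
  linarith

theorem sum_pow2 (U : Finset ℕ) (B : ℕ → ℕ → ℝ) (hB : ∀ a, B a a = 0) :
    4 * ∑ A ∈ U.powerset, ∑ a ∈ U \ A, ∑ b ∈ A, B a b =
      2 ^ U.card * ∑ a ∈ U, ∑ b ∈ U, B a b := by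
  classical
  induction U using Finset.induction_on with
  | empty => simp
  | insert u U hu ih =>
    rw [Finset.sum_powerset_insert hu]
    have h1 : ∑ A ∈ U.powerset, ∑ a ∈ insert u U \ A, ∑ b ∈ A, B a b =
        ∑ A ∈ U.powerset, (∑ b ∈ A, B u b + ∑ a ∈ U \ A, ∑ b ∈ A, B a b) := by
      refine Finset.sum_congr rfl (fun A hA => ?_)
      have hA' : u ∉ A := fun h => hu (Finset.mem_powerset.1 hA h)
      have e : insert u U \ A = insert u (U \ A) := Finset.insert_sdiff_of_notMem _ hA'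
      rw [e, Finset.sum_insert (fun h => hu (Finset.mem_sdiff.1 h).1)]
    have h2 : ∑ A ∈ U.powerset, ∑ a ∈ insert u U \ insert u A, ∑ b ∈ insert u A, B a b =
        ∑ A ∈ U.powerset, (∑ a ∈ U \ A, B a u + ∑ a ∈ U \ A, ∑ b ∈ A, B a b) := by
      refine Finset.sum_congr rfl (fun A hA => ?_)
      have hA' : u ∉ A := fun h => hu (Finset.mem_powerset.1 hA h)
      have e : insert u U \ insert u A = U \ A := by
        ext a
        simp only [Finset.mem_sdiff, Finset.mem_insert]
        constructor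
        · rintro ⟨h1 | h1, h2⟩
          · exact absurd (Or.inl h1) h2
          · exact ⟨h1, fun h => h2 (Or.inr h)⟩
        · rintro ⟨h1, h2⟩
          refine ⟨Or.inr h1, ?_⟩
          rintro (h | h)
          · exact hu (h ▸ h1)
          · exact h2 h
      rw [e, ← Finset.sum_add_distrib]
      exact Finset.sum_congr rfl (fun a _ => by rw [Finset.sum_insert hA'])
    rw [h1, h2, Finset.sum_add_distrib, Finset.sum_add_distrib,
      Finset.card_insert_of_notMem hu, Finset.sum_insert hu, Finset.sum_insert hu, hB u, pow_succ]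
    have h3 : ∑ a ∈ U, ∑ b ∈ insert u U, B a b = ∑ a ∈ U, B a u + ∑ a ∈ U, ∑ b ∈ U, B a b := by
      rw [← Finset.sum_add_distrib]
      exact Finset.sum_congr rfl (fun a _ => by rw [Finset.sum_insert hu])
    rw [h3]
    have h4 := sum_pow U (fun b => B u b)
    have h5 := sum_pow' U (fun a => B a u)
    linarith

theorem cut : S_CUT := by
  classical
  intro G S B δ hδ hB hlt
  set B' : ℕ → ℕ → ℝ := fun a b => if a ∈ G ∧ b ∈ S then B a b else 0 with hB'
  have h1 := sum_pow2 (G ∪ S) B' (fun a => by simp [hB', hB])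
  have h2 : ∑ a ∈ G ∪ S, ∑ b ∈ G ∪ S, B' a b = ∑ a ∈ G, ∑ b ∈ S, B a b := by
    symm
    calc ∑ a ∈ G, ∑ b ∈ S, B a b = ∑ a ∈ G, ∑ b ∈ S, B' a b :=
          Finset.sum_congr rfl (fun a ha => Finset.sum_congr rfl (fun b hb => by
            simp [hB', ha, hb]))
      _ = ∑ a ∈ G, ∑ b ∈ G ∪ S, B' a b :=
          Finset.sum_congr rfl (fun a ha => Finset.sum_subset Finset.subset_union_right
            (fun b _ hb => by simp [hB', hb]))
      _ = ∑ a ∈ G ∪ S, ∑ b ∈ G ∪ S, B' a b :=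
          Finset.sum_subset Finset.subset_union_left
            (fun a _ ha => Finset.sum_eq_zero (fun b _ => by simp [hB', ha]))
  rw [h2] at h1
  have h3 : ∃ A ∈ (G ∪ S).powerset, δ / 8 < ∑ a ∈ (G ∪ S) \ A, ∑ b ∈ A, B' a b := by
    by_contra hne
    push Not at hne
    have h4 : ∑ A ∈ (G ∪ S).powerset, ∑ a ∈ (G ∪ S) \ A, ∑ b ∈ A, B' a b ≤
        ∑ A ∈ (G ∪ S).powerset, δ / 8 := Finset.sum_le_sum hne
    rw [Finset.sum_const, Finset.card_powerset, nsmul_eq_mul] at h4
    push_cast at h4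
    have h5 : (0 : ℝ) < 2 ^ (G ∪ S).card := by positivity
    have h6 : (2 : ℝ) ^ (G ∪ S).card * δ < 2 ^ (G ∪ S).card * ∑ a ∈ G, ∑ b ∈ S, B a b :=
      mul_lt_mul_of_pos_left hlt h5
    have h7 : 0 < (2 : ℝ) ^ (G ∪ S).card * δ := mul_pos h5 hδ
    linarith
  obtain ⟨A, -, hA⟩ := h3
  refine ⟨A ∩ S, Finset.inter_subset_right, G \ A, ?_, ?_⟩
  · intro a ha
    rw [Finset.mem_sdiff] at ha ⊢
    exact ⟨ha.1, fun h => ha.2 (Finset.mem_inter.1 h).1⟩
  · refine lt_of_lt_of_eq hA ?_
    symm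
    calc ∑ a ∈ G \ A, ∑ b ∈ A ∩ S, B a b = ∑ a ∈ G \ A, ∑ b ∈ A ∩ S, B' a b :=
          Finset.sum_congr rfl (fun a ha => Finset.sum_congr rfl (fun b hb => by
            have h1 := (Finset.mem_sdiff.1 ha).1
            have h2 := (Finset.mem_inter.1 hb).2
            simp [hB', h1, h2]))
      _ = ∑ a ∈ G \ A, ∑ b ∈ A, B' a b :=
          Finset.sum_congr rfl (fun a ha => Finset.sum_subset Finset.inter_subset_left
            (fun b hb hb' => by
              have : b ∉ S := fun h => hb' (Finset.mem_inter.2 ⟨hb, h⟩)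
              simp [hB', this]))
      _ = ∑ a ∈ (G ∪ S) \ A, ∑ b ∈ A, B' a b :=
          Finset.sum_subset (Finset.sdiff_subset_sdiff Finset.subset_union_left (le_refl A))
            (fun a ha ha' => Finset.sum_eq_zero (fun b _ => by
              have : a ∉ G := fun h => ha' (Finset.mem_sdiff.2 ⟨h, (Finset.mem_sdiff.1 ha).2⟩)
              simp [hB', this]))

end Pool.Agent.W696.GU
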