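import Pool.Agent.W58.GU.Stm

/-!
Project GU (helper58), part OPR: operators with zero diagonal are small on rapidly increasing sequences.
-/

namespace Pool.Agent.W696.GU
open Finset Filter Topology Pool.Agent.W58.GU

theorem pr_emb {P : Par} {X : Type} [NormedAddCommGroup X] [NormedSpace ℝ X] (M : Model P X)
    (T : X →L[ℝ] X) (f : ℕ →₀ ℚ) (x : ℕ →₀ ℝ) {G S : Finset ℕ} (hG : f.support ⊆ G)
    (hS : x.support ⊆ S) :
    pr f (M.co (T (M.emb x))) =
      ∑ a ∈ G, ∑ b ∈ S, (f a : ℝ) * M.e' (Sum.inr a) (T (M.e (Sum.inr b))) * x b := by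
  rw [pr_eq f _ hG]
  refine Finset.sum_congr rfl (fun a _ => ?_)
  have h1 : M.emb x = ∑ b ∈ S, x b • M.e (Sum.inr b) := by
    unfold Model.emb
    refine Finset.sum_subset hS (fun b _ hb => ?_)
    rw [Finsupp.notMem_support_iff] at hb
    rw [hb, zero_smul]
  show (f a : ℝ) * M.e' (Sum.inr a) (T (M.emb x)) = _
  rw [h1, map_sum, map_sum, Finset.mul_sum]
  refine Finset.sum_congr rfl (fun b _ => ?_)
  rw [map_smul, map_smul, smul_eq_mul]
  ring

theorem rst_apply_mem {R : Type} [Zero R] {A : Set ℕ} (f : ℕ →₀ R) {a : ℕ} (h : a ∈ A) :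
    rst A f a = f a := by
  classical
  unfold rst
  exact Finsupp.filter_apply_pos _ _ h

theorem rst_support {R : Type} [Zero R] (A : Finset ℕ) (f : ℕ →₀ R) :
    (rst (A : Set ℕ) f).support ⊆ A := by
  classical
  intro a ha
  by_contra h
  rw [Finsupp.mem_support_iff] at ha
  apply ha
  unfold rst
  rw [Finsupp.filter_apply, if_neg (by simpa using h)]

theorem rst_univ {R : Type} [Zero R] (f : ℕ →₀ R) : rst Set.univ f = f := by
  ext a
  exact rst_apply_mem f (Set.mem_univ a)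

theorem opr (hcut : S_CUT) (hsel : S_SEL) (hspec : S_SPEC) (hrsub : S_RSUB) : S_OPR := by
  classical
  intro P X _ _ M T hdiag C x j hC hR δ hδ
  by_contra hneg
  push Not at hneg
  have key : ∀ N : ℕ, ∃ n > N, ∃ (A : Set ℕ) (g : ℕ →₀ ℚ), InK P g ∧
      δ / 8 < pr g (M.co (T (M.emb (rst A (x n))))) ∧
      Disjoint g.support (rst A (x n)).support := by
    intro N
    obtain ⟨k, hk, f, hf, hfk⟩ := hneg (N + 1)
    have h1 : ∃ f, InK P f ∧ δ < pr f (M.co (T (M.emb (x k)))) := by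
      rcases le_or_gt 0 (pr f (M.co (T (M.emb (x k))))) with h0 | h0
      · exact ⟨f, hf, by rwa [abs_of_nonneg h0] at hfk⟩
      · exact ⟨-f, hf.neg, by rw [pr_neg_left]; rwa [abs_of_neg h0] at hfk⟩
    obtain ⟨f, hf, hfk⟩ := h1
    rw [pr_emb M T f (x k) (le_refl f.support) (le_refl (x k).support)] at hfk
    obtain ⟨A, hA, G', hG', hlt⟩ := hcut f.support (x k).support
      (fun a b => (f a : ℝ) * M.e' (Sum.inr a) (T (M.e (Sum.inr b))) * x k b) δ hδ
      (fun a => by simp [hdiag]) hfk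
    refine ⟨k, by omega, (A : Set ℕ), rst (G' : Set ℕ) f, hf.rst _, ?_, ?_⟩
    · rw [pr_emb M T _ _ (rst_support G' f) (rst_support A (x k))]
      refine lt_of_lt_of_eq hlt (Finset.sum_congr rfl (fun a ha => Finset.sum_congr rfl
        (fun b hb => ?_)))
      rw [rst_apply_mem f (Finset.mem_coe.2 ha), rst_apply_mem (x k) (Finset.mem_coe.2 hb)]
    · refine Finset.disjoint_of_subset_left (rst_support G' f)
        (Finset.disjoint_of_subset_right (rst_support A (x k)) ?_)
      exact Finset.disjoint_of_subset_left hG' Finset.sdiff_disjoint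
  obtain ⟨ψ, hψ, hP⟩ := Filter.extraction_of_frequently_atTop (Filter.frequently_atTop.2 (fun N => by
    obtain ⟨n, hn, h⟩ := key N
    exact ⟨n, hn.le, h⟩))
  choose A g hg1 hg2 hg3 using hP
  have hR2 := hrsub P C x j hR ψ hψ A
  obtain ⟨φ, N, f, hφ, hN, hall⟩ := hsel P X M T (fun k => rst (A k) (x (ψ k))) g (δ / 8) C
    (by positivity) hR2.succ hR2.bd hg1 hg2 hg3 (δ / 8 / 16) (by positivity)
  have hR3 := hrsub P C _ _ hR2 φ hφ (fun _ => Set.univ)
  simp only [rst_univ] at hR3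
  refine hspec P X M T C _ _ N f (15 * δ / 128) hC (by positivity) hR3 hN (fun k => ?_)
  obtain ⟨h1, h2, h3, h4, h5, h6⟩ := hall k
  refine ⟨h1, h2, h3, h4, ?_, fun l hl => ?_⟩
  · refine le_trans ?_ h5
    linarith
  · refine le_trans (h6 l hl) ?_
    apply div_le_div_of_nonneg_right _ (by positivity)
    linarith

end Pool.Agent.W696.GU
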